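import Mathlib

/-!
# Positive definite functions on `ℤ` and unitary operators
-/

set_option autoImplicit false

open Filter Topology ComplexConjugate

namespace Pool.Agent.Q304.KZ

noncomputable section

/-- The quadratic form of `φ`. -/
def form (φ : ℤ → ℂ) (v : ℤ →₀ ℂ) : ℂ :=
  ∑ m ∈ v.support, ∑ n ∈ v.support, conj (v m) * v n * φ (n - m)

/-- Positive definite functions on `ℤ`. -/
def PD (φ : ℤ → ℂ) : Prop :=
  (∀ n, φ (-n) = conj (φ n)) ∧ ∀ v : ℤ →₀ ℂ, 0 ≤ (form φ v).re

/-- kernel -/
def Kmat (φ : ℤ → ℂ) : Matrix ℤ ℤ (ℂ →L[ℂ] ℂ) :=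
  fun m n => φ (n - m) • ContinuousLinearMap.id ℂ ℂ

lemma Kmat_herm {φ : ℤ → ℂ} (h : PD φ) : (Kmat φ).IsHermitian := by
  ext m n
  simp only [Kmat, Matrix.conjTranspose_apply, star_smul, RCLike.star_def]
  have : star (ContinuousLinearMap.id ℂ ℂ) = ContinuousLinearMap.id ℂ ℂ := by
    rw [← ContinuousLinearMap.one_def, star_one]
  rw [this, ← h.1, neg_sub]

open scoped ComplexOrder in
lemma Kmat_posSemidef {φ : ℤ → ℂ} (h : PD φ) : (Kmat φ).PosSemidef := by
  have key : (Kmat φ).PosSemidef ↔ (Kmat φ).IsHermitian ∧ ∀ (vv : ℤ →₀ ℂ),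
    0 ≤ RCLike.re (vv.sum fun x w ↦ vv.sum fun x' w' ↦ inner ℂ (Kmat φ x' x w) w') :=
    (RKHS.posSemidef_tfae (K := Kmat φ)).out 0 2
  rw [key]
  refine ⟨Kmat_herm h, ?_⟩
  intro vv
  have h2 := h.2 vv
  simp only [Finsupp.sum]
  refine h2.trans_eq ?_
  change _ = Complex.re _
  congr 1
  rw [form]
  refine Finset.sum_congr rfl fun m _ => Finset.sum_congr rfl fun n _ => ?_
  simp only [Kmat, smul_apply, ContinuousLinearMap.id_apply, smul_eq_mul,
    RCLike.inner_apply, map_mul]
  rw [← h.1, neg_sub]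
  ring

lemma mul_app {H : Type} [NormedAddCommGroup H] [InnerProductSpace ℂ H] (f g : H ≃ₗᵢ[ℂ] H)
    (x : H) : (f * g) x = f (g x) := rfl

lemma orbits {φ : ℤ → ℂ} (h : PD φ) :
    ∃ (H : Type) (_ : NormedAddCommGroup H) (_ : InnerProductSpace ℂ H) (_ : CompleteSpace H)
      (orb : ℤ → H), (∀ m n : ℤ, inner ℂ (orb m) (orb n) = φ (n - m)) ∧
      DenseRange (Finsupp.linearCombination ℂ orb) := by
  open scoped ComplexOrder in
  haveI : Fact (Kmat φ).PosSemidef := ⟨Kmat_posSemidef h⟩
  refine ⟨RKHS.OfKernel (Kmat φ), inferInstance, inferInstance, inferInstance,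
    fun n => RKHS.kerFun (RKHS.OfKernel (Kmat φ)) n (1 : ℂ), ?_, ?_⟩
  · intro m n
    have h1 := RKHS.kernel_inner (H := RKHS.OfKernel (Kmat φ)) n m (1 : ℂ) (1 : ℂ)
    rw [← h1, RKHS.OfKernel.kernel_ofKernel]
    simp only [Kmat, smul_apply, ContinuousLinearMap.id_apply, smul_eq_mul,
      RCLike.inner_apply, mul_one, one_mul]
    rw [← h.1, neg_sub]
  · have h1 := RKHS.kerFun_dense (H := RKHS.OfKernel (Kmat φ))
    have h2 : Submodule.span ℂ {RKHS.kerFun (RKHS.OfKernel (Kmat φ)) x v | (x : ℤ) (v : ℂ)} ≤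
        LinearMap.range (Finsupp.linearCombination ℂ
          (fun n : ℤ => RKHS.kerFun (RKHS.OfKernel (Kmat φ)) n (1 : ℂ))) := by
      rw [Submodule.span_le]
      rintro _ ⟨x, v, rfl⟩
      refine ⟨Finsupp.single x v, ?_⟩
      rw [Finsupp.linearCombination_single, ← map_smul, smul_eq_mul, mul_one]
    have hspan : (LinearMap.range (Finsupp.linearCombination ℂ
          (fun n : ℤ => RKHS.kerFun (RKHS.OfKernel (Kmat φ)) n (1 : ℂ)))).topologicalClosure
            = ⊤ := by
      rw [eq_top_iff, ← h1]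
      exact Submodule.topologicalClosure_mono h2
    intro x
    have : x ∈ (LinearMap.range (Finsupp.linearCombination ℂ
          (fun n : ℤ => RKHS.kerFun (RKHS.OfKernel (Kmat φ)) n (1 : ℂ)))).topologicalClosure := by
      rw [hspan]; trivial
    exact this

/-- **GNS construction.** A positive definite function is a matrix coefficient of a unitary
operator with a cyclic vector. -/
theorem gns {φ : ℤ → ℂ} (h : PD φ) :
    ∃ (H : Type) (_ : NormedAddCommGroup H) (_ : InnerProductSpace ℂ H) (_ : CompleteSpace H)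
      (U : H ≃ₗᵢ[ℂ] H) (x : H), (∀ n : ℤ, inner ℂ x ((U ^ n) x) = φ n) ∧
      (∀ y, (∀ n : ℤ, inner ℂ y ((U ^ n) x) = 0) → y = 0) := by
  obtain ⟨H, i1, i2, i3, orb, inner_orb, lc_dense⟩ := orbits h
  set lc : (ℤ →₀ ℂ) →ₗ[ℂ] H := Finsupp.linearCombination ℂ orb with hlc
  have lc_single : ∀ (n : ℤ) (a : ℂ), lc (Finsupp.single n a) = a • orb n := by
    intro n a
    rw [hlc, Finsupp.linearCombination_single]
  let shf : (ℤ →₀ ℂ) ≃ₗ[ℂ] (ℤ →₀ ℂ) := Finsupp.domLCongr (Equiv.addRight (1 : ℤ))
  have shf_single : ∀ (n : ℤ) (a : ℂ), shf (Finsupp.single n a) = Finsupp.single (n + 1) a := by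
    intro n a
    simp [shf]
  have inner_lc_shf : ∀ a b : ℤ →₀ ℂ,
      inner ℂ (lc (shf a)) (lc (shf b)) = inner ℂ (lc a) (lc b) := by
    intro a b
    induction a using Finsupp.induction_linear with
    | zero => simp
    | add a a' h h' => simp only [map_add, inner_add_left, h, h']
    | single m x =>
      induction b using Finsupp.induction_linear with
      | zero => simp
      | add b b' h h' => simp only [map_add, inner_add_right, h, h']
      | single n y =>
        simp only [shf_single, lc_single, inner_smul_left, inner_smul_right, inner_orb]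
        congr 3
        ring
  have norm_lc_shf : ∀ a : ℤ →₀ ℂ, ‖lc (shf a)‖ = ‖lc a‖ := by
    intro a
    have h2 : ‖lc (shf a)‖ ^ 2 = ‖lc a‖ ^ 2 := by
      rw [norm_sq_eq_re_inner (𝕜 := ℂ), norm_sq_eq_re_inner (𝕜 := ℂ), inner_lc_shf]
    exact (sq_eq_sq₀ (norm_nonneg _) (norm_nonneg _)).1 h2
  let UU : H ≃ₗᵢ[ℂ] H :=
    LinearEquiv.extendOfIsometry shf lc lc lc_dense lc_dense norm_lc_shf
  have UU_orb : ∀ n : ℤ, UU (orb n) = orb (n + 1) := by
    intro n
    have h1 := LinearEquiv.extendOfIsometry_eq shf lc lc lc_dense lc_dense norm_lc_shf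
      (Finsupp.single n 1)
    rw [shf_single, lc_single, lc_single, one_smul, one_smul] at h1
    exact h1
  have pow_orb : ∀ n m : ℤ, (UU ^ n) (orb m) = orb (m + n) := by
    intro n
    induction n using Int.induction_on with
    | zero => intro m; simp
    | succ i ih =>
      intro m
      rw [zpow_add_one, mul_app, UU_orb, ih]
      congr 1; ring
    | pred i ih =>
      intro m
      have h1 : (UU ^ (-(i:ℤ) - 1)) (UU (orb (m - 1))) = orb (m - 1 + -(i:ℤ)) := by
        rw [← mul_app, ← zpow_add_one, sub_add_cancel, ih]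
      rw [UU_orb, sub_add_cancel] at h1
      rw [h1]
      congr 1; ring
  refine ⟨H, i1, i2, i3, UU, orb 0, ?_, ?_⟩
  · intro n
    rw [pow_orb, inner_orb]
    simp
  · intro y hy
    have h1 : ∀ v : ℤ →₀ ℂ, inner ℂ y (lc v) = 0 := by
      intro v
      induction v using Finsupp.induction_linear with
      | zero => simp
      | add a b ha hb => rw [map_add, inner_add_right, ha, hb, add_zero]
      | single n a =>
        rw [lc_single, inner_smul_right]
        have := hy n
        rw [pow_orb, zero_add] at this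
        rw [this, mul_zero]
    have h2 : ∀ z, inner ℂ y z = 0 := by
      intro z
      have hc : IsClosed {z | inner ℂ y z = 0} :=
        isClosed_eq (continuous_const.inner continuous_id) continuous_const
      exact lc_dense.induction_on (p := fun z => inner ℂ y z = 0) z hc h1
    exact inner_self_eq_zero.1 (h2 y)

/-- Matrix coefficients of unitary operators are positive definite. -/
theorem pd_coeff {H : Type} [NormedAddCommGroup H] [InnerProductSpace ℂ H]
    (U : H ≃ₗᵢ[ℂ] H) (x : H) : PD (fun n : ℤ => inner ℂ x ((U ^ n) x)) := by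
  have hinv : ∀ (m n : ℤ), inner ℂ ((U ^ m) x) ((U ^ n) x) = inner ℂ x ((U ^ (n - m)) x) := by
    intro m n
    have : (U ^ n) x = (U ^ m) ((U ^ (n - m)) x) := by
      rw [← mul_app, ← zpow_add]
      congr 2; ring
    rw [this, LinearIsometryEquiv.inner_map_map]
  constructor
  · intro n
    have := hinv n 0
    simp only [zpow_zero, zero_sub] at this
    change inner ℂ x ((U ^ (-n)) x) = conj (inner ℂ x ((U ^ n) x))
    rw [← this, inner_conj_symm]
    rfl
  · intro v
    have : form (fun n : ℤ => inner ℂ x ((U ^ n) x)) v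
        = inner ℂ (∑ m ∈ v.support, v m • (U ^ m) x) (∑ n ∈ v.support, v n • (U ^ n) x) := by
      rw [form, sum_inner]
      refine Finset.sum_congr rfl fun m _ => ?_
      rw [inner_sum]
      refine Finset.sum_congr rfl fun n _ => ?_
      rw [inner_smul_left, inner_smul_right, hinv]
      ring
    rw [this]
    exact inner_self_nonneg (𝕜 := ℂ)

end

end Pool.Agent.Q304.KZ
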